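import Pool.Agent.W601.RP.Stm2

/-!
# Project RP (helper601), part SGN (helper347)
-/

set_option autoImplicit false

open Filter Topology

namespace Pool.Agent.W347.RP

open Pool.Agent.W601.RP

/-- choice of a sign for one element of the circle -/
theorem sgn_one (z : TT) : ∃ e : ℤ, (e = 1 ∨ e = -1) ∧ e • z = ((‖z‖ : ℝ) : TT) := by
  obtain ⟨y, rfl⟩ := QuotientAddGroup.mk_surjective z
  have hn : ‖((y : ℝ) : TT)‖ = |y - round y| := UnitAddCircle.norm_eq
  have hz : ((y - round y : ℝ) : TT) = ((y : ℝ) : TT) := by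
    rw [AddCircle.coe_sub, sub_eq_self]
    have := AddCircle.coe_eq_zero_iff (p := (1 : ℝ)) (x := ((round y : ℤ) : ℝ))
    rw [this]
    exact ⟨round y, by simp⟩
  change ∃ e : ℤ, (e = 1 ∨ e = -1) ∧ e • ((y : ℝ) : TT) = ((‖((y : ℝ) : TT)‖ : ℝ) : TT)
  rw [hn]
  rcases le_or_gt 0 (y - round y) with h | h
  · refine ⟨1, Or.inl rfl, ?_⟩
    rw [abs_of_nonneg h, hz, one_smul]
  · refine ⟨-1, Or.inr rfl, ?_⟩
    rw [abs_of_neg h, neg_smul, one_smul, AddCircle.coe_neg, hz]

/-- a subset with sum between `1/4` and `1/2` -/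
theorem sub_sum (ξ : ℕ → ℝ) (s : Finset ℕ) (h0 : ∀ i ∈ s, 0 ≤ ξ i) (h1 : ∀ i ∈ s, ξ i < 1 / 4)
    (h : 1 / 4 ≤ ∑ i ∈ s, ξ i) : ∃ t ⊆ s, 1 / 4 ≤ ∑ i ∈ t, ξ i ∧ ∑ i ∈ t, ξ i ≤ 1 / 2 := by
  induction s using Finset.induction_on with
  | empty => rw [Finset.sum_empty] at h; norm_num at h
  | insert a s ha ih =>
    by_cases hs : 1 / 4 ≤ ∑ i ∈ s, ξ i
    · obtain ⟨t, ht, h2⟩ := ih (fun i hi => h0 i (Finset.mem_insert_of_mem hi))
        (fun i hi => h1 i (Finset.mem_insert_of_mem hi)) hs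
      exact ⟨t, ht.trans (Finset.subset_insert _ _), h2⟩
    · refine ⟨insert a s, Finset.Subset.refl _, h, ?_⟩
      rw [Finset.sum_insert ha]
      have := h1 a (Finset.mem_insert_self _ _)
      push Not at hs
      linarith

theorem sgn : S_SGN := by
  intro s z δ hδ hz hcard
  have main : ∃ σ : ℕ → ℤ, (∀ i, σ i = 0 ∨ σ i = 1 ∨ σ i = -1) ∧
      1 / 4 ≤ ‖∑ i ∈ s, σ i • z i‖ := by
    by_cases hbig : ∃ i ∈ s, 1 / 4 ≤ ‖z i‖
    · obtain ⟨i, hi, h⟩ := hbig
      refine ⟨fun j => if j = i then 1 else 0, fun j => ?_, ?_⟩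
      · dsimp only
        split_ifs
        · exact Or.inr (Or.inl rfl)
        · exact Or.inl rfl
      · rw [Finset.sum_eq_single i]
        · dsimp only
          rw [if_pos rfl, one_smul]
          exact h
        · intro j _ hj
          dsimp only
          rw [if_neg hj, zero_smul]
        · intro h'
          exact absurd hi h'
    · push Not at hbig
      have hsum : 1 / 4 ≤ ∑ i ∈ s, ‖z i‖ := by
        have h1 : ∑ i ∈ s, δ / 2 ≤ ∑ i ∈ s, ‖z i‖ := Finset.sum_le_sum hz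
        rw [Finset.sum_const, nsmul_eq_mul] at h1
        linarith
      obtain ⟨t, ht, h1, h2⟩ := sub_sum (fun i => ‖z i‖) s (fun i _ => norm_nonneg _) hbig hsum
      choose e he1 he2 using fun i => sgn_one (z i)
      refine ⟨fun i => if i ∈ t then e i else 0, fun i => ?_, ?_⟩
      · dsimp only
        split_ifs
        · exact Or.inr (he1 i)
        · exact Or.inl rfl
      · have h3 : ∑ i ∈ s, (if i ∈ t then e i else 0) • z i =
            ((∑ i ∈ t, ‖z i‖ : ℝ) : TT) := by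
          rw [← Finset.sum_subset ht]
          · have h4 : ∑ i ∈ t, (if i ∈ t then e i else 0) • z i =
                ∑ i ∈ t, ((‖z i‖ : ℝ) : TT) :=
              Finset.sum_congr rfl fun i hi => by rw [if_pos hi, he2]
            rw [h4]
            exact (map_sum (QuotientAddGroup.mk' (AddSubgroup.zmultiples (1 : ℝ)))
              (fun i => ‖z i‖) t).symm
          · intro i _ hi
            rw [if_neg hi, zero_smul]
        dsimp only
        rw [h3]
        have h5 : ‖((∑ i ∈ t, ‖z i‖ : ℝ) : TT)‖ = |∑ i ∈ t, ‖z i‖| := by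
          rw [AddCircle.norm_coe_eq_abs_iff]
          · rw [abs_of_nonneg (Finset.sum_nonneg fun i _ => norm_nonneg _)]
            simpa using h2
          · norm_num
        rw [h5]
        exact h1.trans (le_abs_self _)
  refine ⟨fun r => ?_, main⟩
  by_cases hr : 1 / 8 ≤ ‖r‖
  · refine ⟨fun _ => 0, fun _ => Or.inl rfl, ?_⟩
    simpa using hr
  · push Not at hr
    obtain ⟨σ, h1, h2⟩ := main
    refine ⟨σ, h1, ?_⟩
    have h3 := norm_sub_le (r + ∑ i ∈ s, σ i • z i) r
    rw [add_sub_cancel_left] at h3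
    linarith

end Pool.Agent.W347.RP
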